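import Pool.Agent.LibGS68.FinII

open Module Submodule

namespace Pool.Agent.Results.MP_c2f909_co.GeometricSteiner

open Pool.Agent.LibGS68

/-- **q-Steiner systems and Desarguesian derived spreads: all parameters.**
Let `F` be any finite field, `q = |F|`, `1 ≤ t < k < n`, and let `D` be an `S_q(t,k,n)`. For a `(t-1)`-space `U` the blocks through `U`
form a `(k-t+1)`-spread `{B/U}` of `F^n / U` (the derived spread of `D` at `U`); it is Desarguesian (geometric) if it consists of
one-dimensional subspaces over a field of `F`-linear maps of `F^n / U` (`DesarguesianAt`).

(1) There is an `S_q(t,k,n)` all of whose derived spreads are Desarguesian if and only if `t = 1` and `k ∣ n`.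

(2) Let `t ≥ 2`, `D` any `S_q(t,k,n)`, `T` any `(t-2)`-space, and write `N = n - t + 2`, `d = k - t + 2` (the derived design at `T` is an
`S_q(2,d,N)`). A subspace `W ≥ T` such that the derived spread is Desarguesian at all `(t-1)`-spaces between `T` and `W` has codimension
at least `e = codimBound q t k n`, and the number `m` of all `(t-1)`-spaces `U ≥ T` at which the derived spread is not Desarguesian
satisfies `m (q-1) + 1 ≥ q ^ e`. Here `e = (N-1)/(d-1) + 1` if `d ≥ 6`, if `d = 4, 5` and `(d, N) ≠ (4,13), (4,16), (5,21)`, and if `d = 3`
and `q > 2`; for `d = 3`, `q = 2` it is `(N-1)/2` or `(N-3)/2`, according to `N = 3` or `1` modulo 4.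

For `(t,k,n) = (2,3,7)` (the q-analogue of the Fano plane) S. Thomas (1996) proved that there is a point with a non-Desarguesian derived
spread (a non-α-point), and Heden and Sissokho (2016, `q = 2`) and Kiermaier (2022, `q` prime or even) that these points meet every
hyperplane; (2) says that they meet every subspace of dimension 4 and that there are at least `q^3 + q^2 + q + 1` of them if `q > 2`, and that
they meet every subspace of dimension 5 and that there are at least 7 if `q = 2`.

The proof is elementary. For `t = 2` and a subspace `W` of α-points the multiplications of the spread fields at different points are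
compared (`Ker D x` and the transport `j z + a x ∈ ⟨x,z⟩`) and patched to one bilinear map `f : W × W → V` with `f(v,v) = 0` and
`f(v,x) ∉ ⟨v⟩` for independent `v, x`. Such a map does not exist for `V = W` by the theorem of Chevalley and Warning
(`v ↦ trace adj f(v, ·)` is a form of degree `dim W - 1` in `dim W` variables whose only zero is `0`); so `W` contains no block. If the
codimension of `W` is small the same theorem, applied to the maximal minors of `f(v, ·)` modulo `W`, shows that `W` contains a block. -/
theorem result {F : Type} [Field F] [Finite F] {t k n : ℕ} (ht : 1 ≤ t) (htk : t < k) (hkn : k < n) :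
    ((∃ D : Set (Submodule F (Fin n → F)), IsSteiner t k D ∧
        ∀ U : Submodule F (Fin n → F), finrank F U + 1 = t → DesarguesianAt D U) ↔ t = 1 ∧ k ∣ n) ∧
    (∀ D : Set (Submodule F (Fin n → F)), IsSteiner t k D →
      ∀ T : Submodule F (Fin n → F), finrank F T + 2 = t →
        (∀ W : Submodule F (Fin n → F), T ≤ W →
          (∀ U : Submodule F (Fin n → F), T ≤ U → U ≤ W → finrank F U + 1 = t → DesarguesianAt D U) →
          codimBound (Nat.card F) t k n + finrank F W ≤ n) ∧
        Nat.card F ^ codimBound (Nat.card F) t k n ≤
          {U : Submodule F (Fin n → F) | T ≤ U ∧ finrank F U + 1 = t ∧ ¬ DesarguesianAt D U}.ncard *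
            (Nat.card F - 1) + 1) :=
  main2 ht htk hkn

end Pool.Agent.Results.MP_c2f909_co.GeometricSteiner
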