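import Pool.Agent.LibQF86.Main

/-!
# Automorphisms of prime order of q-analogues of the Fano plane

The definitions `IsFano`, `Pres`, `NonScalar`, `kk`, `Eg`, `eigDims`, `Fx` are in `Pool.Agent.LibQF86.Defs`.
-/

open Module Polynomial

namespace Pool.Agent.Results.MP_c2f909_co.PrimeOrderTypes

open Pool.Agent.LibQF86

/-- Types of the linear automorphisms of prime order (of `ℓ`-power order if `ℓ ∣ q`) of an `S_q(2,3,7)`,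
for every prime power `q = Fintype.card F`. -/
theorem result {F V : Type} [Field F] [Fintype F] [AddCommGroup V] [Module F V] {D : Set (Submodule F V)}
    (hD : IsFano D) {u : V ≃ₗ[F] V} (hp : Pres D u) (hn : NonScalar u) {ℓ : ℕ} (hℓ : ℓ.Prime)
    (h : u ^ ℓ = 1 ∨ (ℓ ∣ Fintype.card F ∧ ∃ a, u ^ ℓ ^ a = 1)) :
    (ℓ ∣ Fintype.card F ∧
      ((kk u 1 = 4 ∧ kk u 2 = 7) ∨
       (ℓ ≠ 3 ∧ kk u 1 = 2 ∧ kk u 2 = 4 ∧ kk u 3 = 6 ∧ kk u 4 = 7) ∨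
       (ℓ ≠ 3 ∧ ℓ ≠ 5 ∧ kk u 1 = 1))) ∨
    (ℓ ∣ Fintype.card F - 1 ∧
      ((eigDims u = {4, 3} ∧ ∃! B, B ∈ D ∧ ∃ c, B ≤ Eg u c) ∨
       (5 ≤ ℓ ∧ eigDims u = {2, 2, 2, 1}) ∨
       (7 ≤ ℓ ∧ eigDims u = {1, 1, 1, 1, 1, 1, 1}))) ∨
    (orderOf (Fintype.card F : ZMod ℓ) = 2 ∧ finrank F (Fx u) = 1) ∨
    (orderOf (Fintype.card F : ZMod ℓ) = 3 ∧ finrank F (Fx u) = 1 ∧
      ∃ g : F[X], Irreducible g ∧ g.natDegree = 3 ∧ aeval (u : V →ₗ[F] V) ((X - 1) * g) = 0) ∨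
    (orderOf (Fintype.card F : ZMod ℓ) = 4 ∧ Fx u ∈ D) ∨
    (orderOf (Fintype.card F : ZMod ℓ) = 6 ∧ finrank F (Fx u) = 1) ∨
    (orderOf (Fintype.card F : ZMod ℓ) = 7 ∧ Fx u = ⊥) :=
  main hD hp hn hℓ h

end Pool.Agent.Results.MP_c2f909_co.PrimeOrderTypes
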